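import Pool.Agent.H174.GP.StA
import Pool.Agent.H174.GP.StP
import Pool.Agent.H174.GP.StC

/-!
# Project GP (helper174): `gp_step` (helper117)
-/

open MeasureTheory ProbabilityTheory Finset

namespace Pool.Agent.H117.GP174

open Pool.Agent.H174.GP

theorem Ch_eq (ω : ℕ → ℝ) (L x : ℕ) :
    Ch ω L x = ∑ j ∈ Finset.Icc 1 L, ((min j x : ℕ) : ℝ) * (ω j / (j : ℝ)) := rfl

theorem Ch_meas (L x : ℕ) : Measurable (fun ω : ℕ → ℝ => Ch ω L x) := by
  have h : (fun ω : ℕ → ℝ => Ch ω L x)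
      = fun ω => ∑ j ∈ Finset.Icc 1 L, ((min j x : ℕ) : ℝ) * (ω j / (j : ℝ)) := rfl
  rw [h]
  apply Finset.measurable_sum
  intro j _
  exact ((measurable_pi_apply j).div_const _).const_mul _

theorem Ch_mono (L x : ℕ) {ω ω' : ℕ → ℝ} (h : ω ≤ ω') : Ch ω L x ≤ Ch ω' L x := by
  rw [Ch_eq, Ch_eq]
  apply Finset.sum_le_sum
  intro j _
  apply mul_le_mul_of_nonneg_left _ (Nat.cast_nonneg _)
  exact div_le_div_of_nonneg_right (h j) (Nat.cast_nonneg _)

theorem Ch_dep (L x : ℕ) {ω ω' : ℕ → ℝ} (h : ∀ j ∈ Finset.Icc 1 L, ω j = ω' j) :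
    Ch ω L x = Ch ω' L x := by
  rw [Ch_eq, Ch_eq]
  apply Finset.sum_congr rfl
  intro j hj
  rw [h j hj]

/-- The event that the process is nonnegative on a finite set. -/
def Ev (X : Finset ℕ) (L : ℕ) : Set (ℕ → ℝ) := {ω | ∀ x ∈ X, 0 ≤ Ch ω L x}

theorem Ev_meas (X : Finset ℕ) (L : ℕ) : MeasurableSet (Ev X L) := by
  have h : Ev X L = ⋂ x ∈ X, {ω : ℕ → ℝ | 0 ≤ Ch ω L x} := by
    ext ω
    simp [Ev]
  rw [h]
  exact Finset.measurableSet_biInter X (fun x _ => measurableSet_le measurable_const (Ch_meas L x))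

theorem Ev_dep (X : Finset ℕ) (L : ℕ) : DepOn (Finset.Icc 1 L) (Ev X L) := by
  intro ω ω' h hω x hx
  rw [← Ch_dep L x h]
  exact hω x hx

theorem Ev_upper (X : Finset ℕ) (L : ℕ) : IsUpperSet (Ev X L) := by
  intro ω ω' h hω x hx
  exact (hω x hx).trans (Ch_mono L x h)

theorem Ch_split (ω : ℕ → ℝ) {K L x : ℕ} (hxK : x ≤ K) (hKL : K ≤ L) :
    Ch ω L x = Ch ω K x + (x : ℝ) * ∑ j ∈ Finset.Ioc K L, ω j / (j : ℝ) := by
  rw [Ch_eq, Ch_eq]
  have hu : Finset.Icc 1 L = Finset.Icc 1 K ∪ Finset.Ioc K L := by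
    ext j
    simp only [Finset.mem_Icc, Finset.mem_union, Finset.mem_Ioc]
    omega
  have hd : Disjoint (Finset.Icc 1 K) (Finset.Ioc K L) := by
    rw [Finset.disjoint_left]
    intro j hj hj'
    simp only [Finset.mem_Icc, Finset.mem_Ioc] at hj hj'
    omega
  rw [hu, Finset.sum_union hd, Finset.mul_sum]
  congr 1
  apply Finset.sum_congr rfl
  intro j hj
  simp only [Finset.mem_Ioc] at hj
  have h1 : min j x = x := by omega
  rw [h1]

theorem gp_step (h1 : S_crude) (h2 : S_AdmCh) (h3 : S_half) (h4 : S_indep) (h5 : S_harris) :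
    Pool.Agent.H174.GP.S_step := by
  obtain ⟨c0, hc0, κ1, hκ1, δ0, hδ0, hcr⟩ := h1 2 2 24 (by norm_num) (by norm_num) (by norm_num)
  -- the windows
  have hwin : ∀ a b L : ℕ, 1 ≤ a → a ≤ b → b ≤ L →
      c0 * ((a : ℝ) / b) ^ κ1 ≤ PP.real (Ev (Finset.Icc a b) L) := by
    intro a b L ha hab hbL
    refine (hcr (fun j x => x / (j : ℝ)) 1 L a b (h2 L) ha hab hbL).trans ?_
    apply measureReal_mono
    · intro ω hω x hx
      have h6 : δ0 * 1 * Real.sqrt x ≤ Ch ω L x := hω x hx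
      have h7 : 0 ≤ δ0 * 1 * Real.sqrt x := by positivity
      exact h7.trans h6
    · exact measure_ne_top _ _
  -- the first part of the path
  have hfirst : ∀ K L : ℕ, 1 ≤ K → K ≤ L → uu K / 2 ≤ PP.real (Ev (Finset.Icc 1 K) L) := by
    intro K L hK hKL
    set G : Set (ℕ → ℝ) := {ω | 0 ≤ ∑ j ∈ Finset.Ioc K L, ω j / (j : ℝ)} with hG
    have hGm : MeasurableSet G := by
      apply measurableSet_le measurable_const
      apply Finset.measurable_sum
      intro j _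
      exact (measurable_pi_apply j).div_const _
    have hGd : DepOn (Finset.Ioc K L) G := by
      intro ω ω' h hω
      have h6 : ∑ j ∈ Finset.Ioc K L, ω j / (j : ℝ) = ∑ j ∈ Finset.Ioc K L, ω' j / (j : ℝ) := by
        apply Finset.sum_congr rfl
        intro j hj
        rw [h j hj]
      have h7 : 0 ≤ ∑ j ∈ Finset.Ioc K L, ω j / (j : ℝ) := hω
      rw [h6] at h7
      exact h7
    have hG2 : 1 / 2 ≤ PP.real G :=
      h3 (Finset.Ioc K L) (fun j x => x / (j : ℝ)) (fun j _ => measurable_id.div_const _)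
        (fun j _ x => neg_div _ _)
    have hd : Disjoint (Finset.Icc 1 K) (Finset.Ioc K L) := by
      rw [Finset.disjoint_left]
      intro j hj hj'
      simp only [Finset.mem_Icc, Finset.mem_Ioc] at hj hj'
      omega
    have h6 := h4 (Finset.Icc 1 K) (Finset.Ioc K L) (Ev (Finset.Icc 1 K) K) G hd
      (Ev_meas _ _) hGm (Ev_dep _ _) hGd
    have h7 : PP.real (Ev (Finset.Icc 1 K) K ∩ G) ≤ PP.real (Ev (Finset.Icc 1 K) L) := by
      apply measureReal_mono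
      · rintro ω ⟨hω1, hω2⟩ x hx
        rw [Ch_split ω (Finset.mem_Icc.1 hx).2 hKL]
        have h8 : 0 ≤ Ch ω K x := hω1 x hx
        have h9 : 0 ≤ ∑ j ∈ Finset.Ioc K L, ω j / (j : ℝ) := hω2
        exact add_nonneg h8 (mul_nonneg (Nat.cast_nonneg _) h9)
      · exact measure_ne_top _ _
    have h8 : uu K = PP.real (Ev (Finset.Icc 1 K) K) := rfl
    have h9 : 0 ≤ PP.real (Ev (Finset.Icc 1 K) K) := measureReal_nonneg
    rw [h8]
    rw [h6] at h7
    nlinarith [mul_le_mul_of_nonneg_left hG2 h9]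
  -- Harris
  have hstep : ∀ K L : ℕ, 1 ≤ K → K ≤ L → c0 / 2 * uu K * ((K : ℝ) / L) ^ κ1 ≤ uu L := by
    intro K L hK hKL
    have h6 := h5 (Finset.Icc 1 L) (Ev (Finset.Icc 1 K) L) (Ev (Finset.Icc K L) L)
      (Ev_meas _ _) (Ev_meas _ _) (Ev_dep _ _) (Ev_dep _ _) (Ev_upper _ _) (Ev_upper _ _)
    have h7 : PP.real (Ev (Finset.Icc 1 K) L ∩ Ev (Finset.Icc K L) L) ≤ uu L := by
      have h8 : uu L = PP.real (Ev (Finset.Icc 1 L) L) := rfl
      rw [h8]
      apply measureReal_mono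
      · rintro ω ⟨hω1, hω2⟩ x hx
        rw [Finset.mem_Icc] at hx
        rcases le_total x K with hxK | hxK
        · exact hω1 x (Finset.mem_Icc.2 ⟨hx.1, hxK⟩)
        · exact hω2 x (Finset.mem_Icc.2 ⟨hxK, hx.2⟩)
      · exact measure_ne_top _ _
    have h8 := hfirst K L hK hKL
    have h9 := hwin K L L hK hKL le_rfl
    have h10 : 0 ≤ uu K := measureReal_nonneg
    have h11 : 0 ≤ ((K : ℝ) / L) ^ κ1 := Real.rpow_nonneg (by positivity) _
    calc c0 / 2 * uu K * ((K : ℝ) / L) ^ κ1 = (uu K / 2) * (c0 * ((K : ℝ) / L) ^ κ1) := by ring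
      _ ≤ PP.real (Ev (Finset.Icc 1 K) L) * PP.real (Ev (Finset.Icc K L) L) :=
        mul_le_mul h8 h9 (by positivity) measureReal_nonneg
      _ ≤ _ := h6
      _ ≤ _ := h7
  have huu1 : 1 / 2 ≤ uu 1 := by
    have h6 : 1 / 2 ≤ PP.real {ω : ℕ → ℝ | 0 ≤ ∑ j ∈ Finset.Icc 1 1, ω j / (j : ℝ)} :=
      h3 (Finset.Icc 1 1) (fun j x => x / (j : ℝ)) (fun j _ => measurable_id.div_const _)
        (fun j _ x => neg_div _ _)
    refine h6.trans ?_
    have h7 : uu 1 = PP.real (Ev (Finset.Icc 1 1) 1) := rfl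
    rw [h7]
    apply measureReal_mono
    · intro ω hω x hx
      have h8 : 0 ≤ ∑ j ∈ Finset.Icc 1 1, ω j / (j : ℝ) := hω
      have h9 : x = 1 := by
        rw [Finset.mem_Icc] at hx
        omega
      rw [h9, Ch_eq]
      simpa using h8
    · exact measure_ne_top _ _
  have hpos : ∀ K L : ℕ, 0 ≤ ((K : ℝ) / L) ^ κ1 := fun K L => Real.rpow_nonneg (by positivity) _
  refine ⟨c0 / 4, by positivity, κ1, hκ1, ?_, ?_, ?_, ?_, ?_⟩
  · intro K L hK hKL
    refine le_trans ?_ (hstep K L hK hKL)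
    have h10 : 0 ≤ uu K := measureReal_nonneg
    have h12 : 0 ≤ uu K * ((K : ℝ) / L) ^ κ1 := mul_nonneg h10 (hpos K L)
    nlinarith
  · intro K L hK hKL
    exact hfirst K L hK hKL
  · intro a b L ha hab hbL
    refine le_trans ?_ (hwin a b L ha hab hbL)
    have h12 := hpos a b
    nlinarith
  · intro L hL
    have h6 := hstep 1 L le_rfl hL
    have h7 : ((1 : ℕ) : ℝ) / L = (L : ℝ)⁻¹ := by
      rw [Nat.cast_one, one_div]
    have h8 : (((1 : ℕ) : ℝ) / L) ^ κ1 = (L : ℝ) ^ (-κ1) := by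
      rw [h7, Real.inv_rpow (Nat.cast_nonneg _), Real.rpow_neg (Nat.cast_nonneg _)]
    rw [h8] at h6
    refine le_trans ?_ h6
    have h9 : 0 ≤ (L : ℝ) ^ (-κ1) := Real.rpow_nonneg (Nat.cast_nonneg _) _
    have h10 : 0 ≤ c0 / 2 * (uu 1 - 1 / 2) * (L : ℝ) ^ (-κ1) := by
      have h11 : 0 ≤ uu 1 - 1 / 2 := by linarith
      positivity
    nlinarith
  · intro L
    exact measureReal_le_one

end Pool.Agent.H117.GP174
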